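import Pool.Agent.L7h57.RV.Stm

/-!
# Project RV, part D4
-/

namespace Pool.Agent.L7h36.RV

open MvPolynomial Pool.Helper89.Rev Pool.Agent.L7h57.RV

lemma prod_bv (n : ℕ) : ∏ i : Fin n, bv i = (1 : ℂ) := by
  have h1 : (∏ i : Fin n, bq i) * ∏ i : Fin n, bq i = 1 := by
    have e : ∏ i : Fin n, bq i = ∏ i : Fin n, bq (Fin.rev i) :=
      (Equiv.prod_comp Fin.revPerm bq).symm
    have h0 : (∏ i : Fin n, bq i) * ∏ i : Fin n, bq (Fin.rev i) = 1 := by
      rw [← Finset.prod_mul_distrib]
      exact Finset.prod_eq_one fun i _ => bq_rev i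
    rw [← e] at h0
    exact h0
  have h2 : 0 < ∏ i : Fin n, bq i := Finset.prod_pos fun i _ => bq_pos i
  have h3 : ∏ i : Fin n, bq i = 1 := by nlinarith
  have e : ∏ i : Fin n, bv i = ((∏ i : Fin n, bq i : ℚ) : ℂ) := by
    push_cast
    rfl
  rw [e, h3]
  simp

lemma trace_sim {n : ℕ} {Q A B : Matrix (Fin n) (Fin n) ℂ} (hQ : IsUnit Q) (h : Q * A = B * Q) :
    A.trace = B.trace := by
  obtain ⟨⟨Q, R, hQR, hRQ⟩, rfl⟩ := hQ
  have h' : Q * A = B * Q := h
  have e : B = Q * A * R := by rw [h', Matrix.mul_assoc, hQR, Matrix.mul_one]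
  rw [e, Matrix.trace_mul_comm, ← Matrix.mul_assoc, hRQ, Matrix.one_mul]

theorem s_D4 (h1 : S_THM) (h2 : S_NIN) (h3 : S_CAU) (h4 : S_LS) : S_D4 := by
  intro n hn F l g g' hgg hgg' hl hF hprod
  obtain ⟨s, Q, μ, hs, hQ, hQs, hinj, hbμ, hμ, hsum⟩ := h4 n hn l hl hprod
  obtain ⟨v, Q', hQ', hQv, hv0, hv1⟩ := h3 n bv μ bv_injective hinj hbμ bv_ne_zero
  have hv : ∑ i, v i = 1 := hv1 (by rw [hμ, prod_bv])
  have hD : AJ n * Jm n = Matrix.diagonal bv := by
    ext i j
    rw [AJ_Jm_apply, Matrix.diagonal_apply]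
  have hμ0 : ∀ k, μ k ≠ 0 := by
    intro k hk
    have : ∏ k, μ k = 0 := Finset.prod_eq_zero (Finset.mem_univ k) hk
    rw [hμ] at this
    norm_num at this
  have hgood : Good v := by
    refine ⟨hv, fun i => Or.inl (hv0 i), ?_⟩
    by_contra hcon
    push Not at hcon
    apply hsum
    have t1 : (Matrix.diagonal bv * Sm v).trace = ∑ k, μ k := by
      rw [trace_sim hQ' hQv, Matrix.trace_diagonal]
    have t2 : (Sm v * Matrix.diagonal (fun i => (bv i)⁻¹)).trace = ∑ k, (μ k)⁻¹ := by
      have hd1 : Matrix.diagonal bv * Matrix.diagonal (fun i : Fin n => (bv i)⁻¹) = 1 := by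
        rw [Matrix.diagonal_mul_diagonal, ← Matrix.diagonal_one]
        congr 1
        funext i
        exact mul_inv_cancel₀ (bv_ne_zero i)
      have hd2 : Matrix.diagonal (fun k => (μ k)⁻¹) * Matrix.diagonal μ = 1 := by
        rw [Matrix.diagonal_mul_diagonal, ← Matrix.diagonal_one]
        congr 1
        funext i
        exact inv_mul_cancel₀ (hμ0 i)
      have e : Q' * (Sm v * Matrix.diagonal (fun i => (bv i)⁻¹)) =
          Matrix.diagonal (fun k => (μ k)⁻¹) * Q' := by
        have e1 : Matrix.diagonal (fun k => (μ k)⁻¹) *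
            (Matrix.diagonal μ * Q') * (Sm v * Matrix.diagonal (fun i => (bv i)⁻¹)) =
            Matrix.diagonal (fun k => (μ k)⁻¹) * Q' := by
          rw [← hQv]
          have e2 : Q' * (Matrix.diagonal bv * Sm v) *
              (Sm v * Matrix.diagonal (fun i => (bv i)⁻¹)) = Q' := by
            have e3 : Q' * (Matrix.diagonal bv * Sm v) *
                (Sm v * Matrix.diagonal (fun i => (bv i)⁻¹)) =
                Q' * (Matrix.diagonal bv * (Sm v * Sm v) * Matrix.diagonal (fun i => (bv i)⁻¹)) := by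
              simp only [Matrix.mul_assoc]
            rw [e3, Sm_sq v hv, Matrix.mul_one, hd1, Matrix.mul_one]
          rw [Matrix.mul_assoc, e2]
        rw [← e1, ← Matrix.mul_assoc (Matrix.diagonal fun k => (μ k)⁻¹), hd2, Matrix.one_mul]
      rw [trace_sim hQ' e, Matrix.trace_diagonal]
    rw [← t1, ← t2, Matrix.trace, Matrix.trace,
      ← Equiv.sum_comp Fin.revPerm (fun i => Matrix.diag (Sm v *
        Matrix.diagonal (fun i => (bv i)⁻¹)) i)]
    apply Finset.sum_congr rfl
    intro i _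
    rw [Matrix.diag_apply, Matrix.diag_apply, Matrix.diagonal_mul, Matrix.mul_diagonal,
      Fin.revPerm_apply, Sm_apply, Sm_apply, if_pos rfl, if_pos rfl, ← hcon i]
    have e : (bv (Fin.rev i))⁻¹ = bv i := inv_eq_of_mul_eq_one_left (bv_rev i)
    rw [e]
    ring
  have hT : g * s * g' * (g * s * g') = 1 := by
    calc g * s * g' * (g * s * g') = g * s * (g' * g) * (s * g') := by
          simp only [Matrix.mul_assoc]
      _ = g * (s * s) * g' := by rw [hgg', Matrix.mul_one]; simp only [Matrix.mul_assoc]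
      _ = 1 := by rw [hs, Matrix.mul_one, hgg]
  obtain ⟨⟨Q, R, hQR, hRQ⟩, rfl⟩ := hQ
  obtain ⟨⟨Q', R', hQR', hRQ'⟩, rfl⟩ := hQ'
  have hQs' : Q * (Matrix.diagonal l * s) = Matrix.diagonal μ * Q := hQs
  have hQv' : Q' * (Matrix.diagonal bv * Sm v) = Matrix.diagonal μ * Q' := hQv
  have hls : Matrix.diagonal l * s = R * Q' * (Matrix.diagonal bv * Sm v) * (R' * Q) := by
    have e1 : Matrix.diagonal μ = Q' * (Matrix.diagonal bv * Sm v) * R' := by
      rw [hQv', Matrix.mul_assoc, hQR', Matrix.mul_one]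
    calc Matrix.diagonal l * s = R * Q * (Matrix.diagonal l * s) := by rw [hRQ, Matrix.one_mul]
      _ = R * (Q * (Matrix.diagonal l * s)) := by rw [Matrix.mul_assoc]
      _ = R * (Matrix.diagonal μ * Q) := by rw [hQs']
      _ = R * (Q' * (Matrix.diagonal bv * Sm v) * R' * Q) := by rw [e1]
      _ = _ := by simp only [Matrix.mul_assoc]
  have h5 : ProdInv 3 (F * Tl (g * s * g') hT) := by
    apply h1 n (by omega) (h2 n hn) v hgood _ (g * R * Q') (R' * Q * g')
    · calc g * R * Q' * (R' * Q * g') = g * R * (Q' * R') * Q * g' := by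
            simp only [Matrix.mul_assoc]
        _ = g * (R * Q) * g' := by rw [hQR', Matrix.mul_one]; simp only [Matrix.mul_assoc]
        _ = 1 := by rw [hRQ, Matrix.mul_one, hgg]
    · calc R' * Q * g' * (g * R * Q') = R' * Q * (g' * g) * R * Q' := by
            simp only [Matrix.mul_assoc]
        _ = R' * (Q * R) * Q' := by rw [hgg', Matrix.mul_one]; simp only [Matrix.mul_assoc]
        _ = 1 := by rw [hQR, Matrix.mul_one, hRQ']
    · rw [Units.val_mul, linPart_mul, hF, Tl_lin, hD]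
      calc g * Matrix.diagonal l * g' * (g * s * g') = g * Matrix.diagonal l * (g' * g) * s * g' := by
            simp only [Matrix.mul_assoc]
        _ = g * (Matrix.diagonal l * s) * g' := by
            rw [hgg', Matrix.mul_one]; simp only [Matrix.mul_assoc]
        _ = _ := by rw [hls]; simp only [Matrix.mul_assoc]
  obtain ⟨t, ht, htF⟩ := h5
  refine ⟨![t 0, t 1, t 2, Tl (g * s * g') hT], ?_, ?_⟩
  · intro j
    fin_cases j
    · exact ht 0
    · exact ht 1
    · exact ht 2
    · exact Tl_sq (g * s * g') hT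
  · have e : F = F * Tl (g * s * g') hT * Tl (g * s * g') hT := by
      rw [mul_assoc, Tl_sq, mul_one]
    rw [e, htF]
    simp [List.ofFn_succ, mul_assoc]

end Pool.Agent.L7h36.RV
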