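import Pool.Agent.L7h57.RV.Stm

/-!
# Project RV, part LEMC
-/

namespace Pool.Agent.L7h36.RV

open MvPolynomial Pool.Helper89.Rev Pool.Agent.L7h57.RV

lemma eval_aeval' {n : ℕ} (f : Fin n → MvPolynomial (Fin n) ℂ) (y : Fin n → ℂ)
    (p : MvPolynomial (Fin n) ℂ) :
    eval y (aeval f p) = eval (fun k => eval y (f k)) p := by
  induction p using MvPolynomial.induction_on with
  | C a => simp
  | add p q hp hq => rw [map_add, map_add, map_add, hp, hq]
  | mul_X p i hp => rw [map_mul, map_mul, map_mul, hp, aeval_X, eval_X]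

lemma eval_lin {n : ℕ} (g : Matrix (Fin n) (Fin n) ℂ) (y : Fin n → ℂ) (k : Fin n) :
    eval y (lin g k) = ∑ l, g k l * y l := by
  unfold lin
  simp [map_sum]

lemma act_scalar {n d : ℕ} (c c' : ℂ) {P : VF n} (hP : HomT d P) :
    act (c • (1 : Matrix (Fin n) (Fin n) ℂ)) (c' • 1) P = (c * c' ^ d) • P := by
  funext i
  unfold act
  rw [Finset.sum_eq_single i]
  · apply MvPolynomial.funext
    intro y
    have e1 : eval y (aeval (lin (c' • (1 : Matrix (Fin n) (Fin n) ℂ))) (P i)) =
        c' ^ d * eval y (P i) := by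
      rw [← eval_scale (hP i), eval_aeval']
      congr 1
      congr 1
      funext k
      rw [eval_lin, Finset.sum_eq_single k]
      · simp
      · intro j _ hj
        simp [Matrix.one_apply_ne (Ne.symm hj)]
      · intro h; exact absurd (Finset.mem_univ _) h
    rw [map_mul, e1]
    simp only [Pi.smul_apply, smul_eval, Matrix.smul_apply, Matrix.one_apply_eq, smul_eq_mul,
      mul_one, eval_C]
    ring
  · intro j _ hj
    simp [Matrix.one_apply_ne (Ne.symm hj)]
  · intro h; exact absurd (Finset.mem_univ _) h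

/-- the field `(a x + b y) E` -/
noncomputable def lE (a b : ℂ) : VF 2 := fun i => (C a * X 0 + C b * X 1) * X i

lemma lE_hom (a b : ℂ) : HomT 2 (lE a b) := by
  intro i
  have h1 : (C a * X 0 + C b * X 1 : MvPolynomial (Fin 2) ℂ).IsHomogeneous 1 :=
    (isHomogeneous_C_mul_X _ _).add (isHomogeneous_C_mul_X _ _)
  exact h1.mul (isHomogeneous_X _ i)

lemma lE_add (a b a' b' : ℂ) : lE a b + lE a' b' = lE (a + a') (b + b') := by
  funext i
  simp only [lE, Pi.add_apply, map_add]
  ring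

lemma lE_smul (c a b : ℂ) : c • lE a b = lE (c * a) (c * b) := by
  funext i
  simp only [lE, Pi.smul_apply, MvPolynomial.smul_eq_C_mul, map_mul]
  ring

lemma lE_zero : lE 0 0 = 0 := by
  funext i
  simp [lE]

lemma act_lE (g g' : Matrix (Fin 2) (Fin 2) ℂ) (h : g * g' = 1) (a b : ℂ) :
    act g g' (lE a b) = lE (a * g' 0 0 + b * g' 1 0) (a * g' 0 1 + b * g' 1 1) := by
  have h00 := congrFun (congrFun h 0) 0
  have h01 := congrFun (congrFun h 0) 1
  have h10 := congrFun (congrFun h 1) 0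
  have h11 := congrFun (congrFun h 1) 1
  simp only [Matrix.mul_apply, Fin.sum_univ_two, Matrix.one_apply_eq] at h00 h11
  rw [Matrix.mul_apply, Fin.sum_univ_two, Matrix.one_apply_ne (by decide)] at h01 h10
  funext i
  apply MvPolynomial.funext
  intro y
  simp only [act, lE, Fin.sum_univ_two, map_add, map_mul, eval_C, eval_X, eval_aeval',
    eval_lin]
  fin_cases i
  · simp only [Fin.zero_eta]
    linear_combination ((a * (g' 0 0 * y 0 + g' 0 1 * y 1) + b * (g' 1 0 * y 0 + g' 1 1 * y 1)) * y 0) * h00 + ((a * (g' 0 0 * y 0 + g' 0 1 * y 1) + b * (g' 1 0 * y 0 + g' 1 1 * y 1)) * y 1) * h01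
  · simp only [Fin.mk_one]
    linear_combination ((a * (g' 0 0 * y 0 + g' 0 1 * y 1) + b * (g' 1 0 * y 0 + g' 1 1 * y 1)) * y 0) * h10 + ((a * (g' 0 0 * y 0 + g' 0 1 * y 1) + b * (g' 1 0 * y 0 + g' 1 1 * y 1)) * y 1) * h11

lemma br_add_left {n : ℕ} (A A' D : VF n) : br (A + A') D = br A D + br A' D := by
  funext i
  simp only [br, Pi.add_apply, map_add]
  rw [← Finset.sum_add_distrib]
  apply Finset.sum_congr rfl
  intro j _
  ring

lemma br_smul_left {n : ℕ} (c : ℂ) (A D : VF n) : br (c • A) D = c • br A D := by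
  funext i
  simp only [br, Pi.smul_apply, Finset.smul_sum]
  apply Finset.sum_congr rfl
  intro j _
  have e : pderiv j (c • A i) = c • pderiv j (A i) := (pderiv j).map_smul c (A i)
  rw [e, smul_mul_assoc, mul_smul_comm, ← smul_sub]

/-- the three linear involutions -/
def mX : Matrix (Fin 2) (Fin 2) ℂ := !![0, 1; 1, 0]
def mY : Matrix (Fin 2) (Fin 2) ℂ := !![0, -Complex.I; Complex.I, 0]
def mZ : Matrix (Fin 2) (Fin 2) ℂ := !![1, 0; 0, -1]

lemma mX_sq : mX * mX = 1 := by
  ext i j
  fin_cases i <;> fin_cases j <;> simp [mX, Matrix.mul_apply, Fin.sum_univ_two]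

lemma mY_sq : mY * mY = 1 := by
  ext i j
  fin_cases i <;> fin_cases j <;> simp [mY, Matrix.mul_apply, Fin.sum_univ_two]

lemma mZ_sq : mZ * mZ = 1 := by
  ext i j
  fin_cases i <;> fin_cases j <;> simp [mZ, Matrix.mul_apply, Fin.sum_univ_two]

lemma mXYZ : mX * mY * mZ = Complex.I • (1 : Matrix (Fin 2) (Fin 2) ℂ) := by
  ext i j
  fin_cases i <;> fin_cases j <;> simp [mX, mY, mZ, Matrix.mul_apply, Fin.sum_univ_two]

lemma mZYX : mZ * mY * mX = (-Complex.I) • (1 : Matrix (Fin 2) (Fin 2) ℂ) := by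
  ext i j
  fin_cases i <;> fin_cases j <;> simp [mX, mY, mZ, Matrix.mul_apply, Fin.sum_univ_two]

lemma prodInv_conj {n r : ℕ} {F u : G n} (h : ProdInv r (u * F * u⁻¹)) : ProdInv r F := by
  obtain ⟨s, hs, hF⟩ := h
  refine ⟨fun j => u⁻¹ * s j * u, fun j => ?_, ?_⟩
  · have e : u⁻¹ * s j * u * (u⁻¹ * s j * u) = u⁻¹ * (s j * s j) * u := by group
    rw [e, hs j]
    group
  · have e : F = u⁻¹ * (u * F * u⁻¹) * u := by group
    rw [e, hF]
    have key : ∀ l : List (G n), u⁻¹ * l.prod * u = (l.map (fun x => u⁻¹ * x * u)).prod := by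
      intro l
      induction l with
      | nil => simp
      | cons a l ih =>
        rw [List.map_cons, List.prod_cons, List.prod_cons, ← ih]
        group
    rw [key, List.map_ofFn]
    rfl

lemma prodInv_inv {n : ℕ} {F : G n} (h : ProdInv 3 F⁻¹) : ProdInv 3 F := by
  obtain ⟨s, hs, hF⟩ := h
  refine ⟨fun j => s (Fin.rev j), fun j => hs _, ?_⟩
  have hi : ∀ j, (s j)⁻¹ = s j := fun j => inv_eq_of_mul_eq_one_left (hs j)
  have e1 : F = (F⁻¹)⁻¹ := (inv_inv F).symm
  rw [e1, hF]
  simp only [List.ofFn_succ, List.ofFn_zero, List.prod_cons, List.prod_nil, mul_one, mul_inv_rev,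
    hi]
  have r0 : Fin.rev (0 : Fin 3) = 2 := rfl
  have r1 : Fin.rev (1 : Fin 3) = 1 := rfl
  have r2 : Fin.rev (2 : Fin 3) = 0 := rfl
  have q1 : (Fin.succ (0 : Fin 2)) = (1 : Fin 3) := rfl
  have q2 : (Fin.succ (Fin.succ (0 : Fin 1))) = (2 : Fin 3) := rfl
  rw [q1, q2, r0, r1, r2]
  group

lemma II1 : (Complex.I • (1 : Matrix (Fin 2) (Fin 2) ℂ)) * ((-Complex.I) • 1) = 1 := by
  rw [Matrix.smul_mul, Matrix.one_mul, smul_smul, mul_neg, Complex.I_mul_I, neg_neg, one_smul]

lemma II2 : ((-Complex.I) • (1 : Matrix (Fin 2) (Fin 2) ℂ)) * (Complex.I • 1) = 1 := by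
  rw [Matrix.smul_mul, Matrix.one_mul, smul_smul, neg_mul, Complex.I_mul_I, neg_neg, one_smul]

/-- the scalar map `i` -/
noncomputable def Lam : G 2 := unitOf (Complex.I • 1) ((-Complex.I) • 1) II1 II2

lemma Lam_lin : linPart (Lam : FormalMap 2) = Complex.I • 1 := linPart_unitOf _ _ _ _

lemma Lam_inv_lin : linPart ((Lam⁻¹ : G 2) : FormalMap 2) = (-Complex.I) • 1 := linPart_ofMatrix _

lemma Tl_XYZ : Tl mX mX_sq * Tl mY mY_sq * Tl mZ mZ_sq = Lam := by
  apply Units.ext
  change ofMatrix mX * ofMatrix mY * ofMatrix mZ = ofMatrix (Complex.I • 1)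
  rw [← ofMatrix_mul, ← ofMatrix_mul, mXYZ]

lemma Lam_comm (t : Matrix (Fin 2) (Fin 2) ℂ) (ht : t * t = 1) :
    Lam * Tl t ht * Lam⁻¹ = Tl t ht := by
  have h : Lam * Tl t ht = Tl t ht * Lam := by
    apply Units.ext
    change ofMatrix (Complex.I • 1) * ofMatrix t = ofMatrix t * ofMatrix (Complex.I • 1)
    rw [← ofMatrix_mul, ← ofMatrix_mul]
    simp
  rw [h]
  group

/-- a conjugate of a linear involution with prescribed quadratic part -/
lemma exists_inv (t : Matrix (Fin 2) (Fin 2) ℂ) (ht : t * t = 1) (a : VF 2) (ha : HomT 2 a)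
    (hta : act t t a = -a) : ∃ s : G 2, s * s = 1 ∧ s * (Tl t ht)⁻¹ ∈ K 2 2 ∧
      gr 2 ((s * (Tl t ht)⁻¹ : G 2) : FormalMap 2) = a ∧ linPart (s : FormalMap 2) = t := by
  have h12 : HomT 2 ((1 / 2 : ℂ) • a) := by
    have := (HomV 2 2).smul_mem (1 / 2 : ℂ) (mem_HomV.2 ha)
    exact mem_HomV.1 this
  obtain ⟨u, hu, hgu⟩ := exists_gr (le_refl 2) h12
  have hc := gr_commutator (le_refl 2) hu (Tl_sq t ht) (Tl_lin t ht) hgu
  refine ⟨u * Tl t ht * u⁻¹, ?_, hc.1, ?_, ?_⟩
  · have e : u * Tl t ht * u⁻¹ * (u * Tl t ht * u⁻¹) = u * (Tl t ht * Tl t ht) * u⁻¹ := by group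
    rw [e, Tl_sq]
    group
  · rw [hc.2]
    have e : act t t ((1 / 2 : ℂ) • a) = (1 / 2 : ℂ) • act t t a := (actL t t).map_smul _ _
    rw [e, hta]
    module
  · rw [linPart_conj hu, Tl_lin]

theorem s_LEMC (h1 : S_GEN) (h2 : S_DV) : S_LEMC := by
  classical
  have main : ∀ F : G 2, linPart (F : FormalMap 2) = Complex.I • 1 → ProdInv 3 F := by
    intro F hF
    -- step 1
    have hFL : F * Lam⁻¹ ∈ K 2 2 := by
      rw [mem_K, cong_two_iff, linPart_one, Units.val_mul, linPart_mul, hF, Lam_inv_lin, II1]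
    have hI1 : (1 + Complex.I : ℂ) ≠ 0 := by
      intro h
      have := congrArg Complex.re h
      simp at this
    set c := gr 2 ((F * Lam⁻¹ : G 2) : FormalMap 2) with hc
    have hb : HomT 2 (-(1 + Complex.I)⁻¹ • c) := by
      have := (HomV 2 2).smul_mem (-(1 + Complex.I)⁻¹) (mem_HomV.2 (gr_hom 2 ((F * Lam⁻¹ : G 2) : FormalMap 2)))
      exact mem_HomV.1 this
    obtain ⟨u, hu, hgu⟩ := exists_gr (le_refl 2) hb
    apply prodInv_conj (u := u)
    set F' := u * F * u⁻¹ with hF'
    have hF'K : F' * Lam⁻¹ ∈ K 2 3 := by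
      have e : F' * Lam⁻¹ = u * (F * Lam⁻¹) * (Lam * u⁻¹ * Lam⁻¹) := by rw [hF']; group
      have m1 : Lam * u⁻¹ * Lam⁻¹ ∈ K 2 2 := (K_normal 2).conj_mem _ ((K 2 2).inv_mem hu) _
      have m2 : u * (F * Lam⁻¹) ∈ K 2 2 := (K 2 2).mul_mem hu hFL
      rw [e]
      apply mem_K_succ (le_refl 2) ((K 2 2).mul_mem m2 m1)
      rw [gr_mul (le_refl 2) m2 m1, gr_mul (le_refl 2) hu hFL,
        gr_conj (le_refl 2) Lam ((K 2 2).inv_mem hu), gr_inv (le_refl 2) hu, hgu, Lam_lin,
        Lam_inv_lin, act_scalar (d := 2), ← hc]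
      · have e1 : Complex.I * (-Complex.I) ^ 2 = -Complex.I := by
          rw [neg_sq, Complex.I_sq]; ring
        rw [e1]
        have e2 : (-(1 + Complex.I)⁻¹ • c + c + -Complex.I • -(-(1 + Complex.I)⁻¹ • c)) =
            (1 - (1 + Complex.I) * (1 + Complex.I)⁻¹) • c := by
          module
        rw [e2, mul_inv_cancel₀ hI1, sub_self, zero_smul]
      · intro i
        have := hb i
        rw [Pi.neg_apply]
        exact this.neg
    -- step 2
    set a1 : VF 2 := lE (-Complex.I) Complex.I with ha1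
    set a2 : VF 2 := lE 1 Complex.I with ha2
    set a3 : VF 2 := lE 0 (Complex.I - 1) with ha3
    have hI2 : Complex.I * Complex.I = -1 := Complex.I_mul_I
    have hXa1 : act mX mX a1 = -a1 := by
      rw [ha1, act_lE _ _ mX_sq, ← neg_one_smul ℂ (lE _ _), lE_smul]
      congr 1 <;> simp [mX]
    have hYa2 : act mY mY a2 = -a2 := by
      rw [ha2, act_lE _ _ mY_sq, ← neg_one_smul ℂ (lE _ _), lE_smul]
      congr 1 <;> simp [mY]
    have hZa3 : act mZ mZ a3 = -a3 := by
      rw [ha3, act_lE _ _ mZ_sq, ← neg_one_smul ℂ (lE _ _), lE_smul]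
      congr 1 <;> simp [mZ]
    have hsum : a1 + act mX mX a2 + act mX mX (act mY mY a3) = 0 := by
      rw [ha1, ha2, ha3, act_lE _ _ mX_sq, act_lE _ _ mY_sq, act_lE _ _ mX_sq, lE_add, lE_add,
        ← lE_zero]
      congr 1
      · simp [mX, mY]
      · simp [mX, mY]
        linear_combination hI2
    obtain ⟨t1, hs1, hK1, hg1, hl1⟩ := exists_inv mX mX_sq a1 (lE_hom _ _) hXa1
    obtain ⟨t2, hs2, hK2, hg2, hl2⟩ := exists_inv mY mY_sq a2 (lE_hom _ _) hYa2
    obtain ⟨t3, hs3, hK3, hg3, hl3⟩ := exists_inv mZ mZ_sq a3 (lE_hom _ _) hZa3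
    set T1 := Tl mX mX_sq with hT1
    set T2 := Tl mY mY_sq with hT2
    set T3 := Tl mZ mZ_sq with hT3
    set P := t1 * t2 * t3 with hP
    have hPL : P * Lam⁻¹ ∈ K 2 3 := by
      have e : P * Lam⁻¹ = (t1 * T1⁻¹) * (T1 * (t2 * T2⁻¹) * T1⁻¹) *
          (T1 * (T2 * (t3 * T3⁻¹) * T2⁻¹) * T1⁻¹) := by
        rw [hP, ← Tl_XYZ, ← hT1, ← hT2, ← hT3]; group
      have m2 : T1 * (t2 * T2⁻¹) * T1⁻¹ ∈ K 2 2 := (K_normal 2).conj_mem _ hK2 _
      have m3 : T2 * (t3 * T3⁻¹) * T2⁻¹ ∈ K 2 2 := (K_normal 2).conj_mem _ hK3 _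
      have m4 : T1 * (T2 * (t3 * T3⁻¹) * T2⁻¹) * T1⁻¹ ∈ K 2 2 := (K_normal 2).conj_mem _ m3 _
      have m12 := (K 2 2).mul_mem hK1 m2
      rw [e]
      apply mem_K_succ (le_refl 2) ((K 2 2).mul_mem m12 m4)
      rw [gr_mul (le_refl 2) m12 m4, gr_mul (le_refl 2) hK1 m2, gr_conj (le_refl 2) T1 hK2,
        gr_conj (le_refl 2) T1 m3, gr_conj (le_refl 2) T2 hK3, hg1, hg2, hg3, hT1, hT2, Tl_inv,
        Tl_inv, Tl_lin, Tl_lin, hsum]
    set t : Fin 3 → G 2 := ![t1, t2, t3] with ht
    have hprod : (List.ofFn t).prod = P := by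
      simp [ht, List.ofFn_succ, hP, mul_assoc]
    have hFP : F' * ((List.ofFn t).prod)⁻¹ ∈ K 2 3 := by
      rw [hprod]
      have e : F' * P⁻¹ = (F' * Lam⁻¹) * (P * Lam⁻¹)⁻¹ := by group
      rw [e]
      exact (K 2 3).mul_mem hF'K ((K 2 3).inv_mem hPL)
    have hsq : ∀ j, t j * t j = 1 := by
      intro j
      fin_cases j
      · exact hs1
      · exact hs2
      · exact hs3
    apply h1 2 3 t hsq 3 (le_refl 3) F' hFP
    intro d hd w hw
    set S := Submodule.span ℂ (GenSet t d) with hS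
    have g1 : ∀ e : VF 2, HomT d e → e - act mX mX e ∈ S := by
      intro e he
      apply Submodule.subset_span
      left
      exact ⟨0, e, he, by simp [ht, hl1]⟩
    have g2 : ∀ e : VF 2, HomT d e → e - act mY mY e ∈ S := by
      intro e he
      apply Submodule.subset_span
      left
      exact ⟨1, e, he, by simp [ht, hl2]⟩
    have g3 : ∀ e : VF 2, HomT d e → e - act mZ mZ e ∈ S := by
      intro e he
      apply Submodule.subset_span
      left
      exact ⟨2, e, he, by simp [ht, hl3]⟩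
    have k1 : ∀ e : VF 2, HomT d e → e ∈ S → act mX mX e ∈ S := by
      intro e he hes
      have e1 : act mX mX e = e - (e - act mX mX e) := by abel
      rw [e1]
      exact S.sub_mem hes (g1 e he)
    have k2 : ∀ e : VF 2, HomT d e → e ∈ S → act mY mY e ∈ S := by
      intro e he hes
      have e1 : act mY mY e = e - (e - act mY mY e) := by abel
      rw [e1]
      exact S.sub_mem hes (g2 e he)
    have homsub : ∀ e f : VF 2, HomT d e → HomT d f → HomT d (e - f) := fun e f he hf i =>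
      (he i).sub (hf i)
    -- w - λ w
    have tel : w - act (Complex.I • 1) ((-Complex.I) • 1) w ∈ S := by
      have e0 : act (Complex.I • 1) ((-Complex.I) • 1) w = act mX mX (act mY mY (act mZ mZ w)) := by
        rw [act_act, act_act, ← mXYZ, ← mZYX]
        simp only [Matrix.mul_assoc]
      have e1 : w - act mX mX (act mY mY (act mZ mZ w)) = (w - act mX mX w) +
          act mX mX (w - act mY mY w) + act mX mX (act mY mY (w - act mZ mZ w)) := by
        have l1 : act mX mX (w - act mY mY w) = act mX mX w - act mX mX (act mY mY w) :=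
          (actL mX mX).map_sub _ _
        have l2 : act mY mY (w - act mZ mZ w) = act mY mY w - act mY mY (act mZ mZ w) :=
          (actL mY mY).map_sub _ _
        have l3 : act mX mX (act mY mY w - act mY mY (act mZ mZ w)) =
          act mX mX (act mY mY w) - act mX mX (act mY mY (act mZ mZ w)) := (actL mX mX).map_sub _ _
        rw [l1, l2, l3]
        abel
      rw [e0, e1]
      apply S.add_mem (S.add_mem (g1 w hw) _)
      · apply k1 _ _ (k2 _ _ (g3 w hw))
        · exact act_hom (homsub _ _ hw (act_hom hw))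
        · exact homsub _ _ hw (act_hom hw)
      · exact k1 _ (homsub _ _ hw (act_hom hw)) (g2 w hw)
    rw [act_scalar _ _ hw] at tel
    by_cases hmu : Complex.I * (-Complex.I) ^ d = 1
    · -- d ≡ 1 mod 4
      have hd4 : 4 ≤ d := by
        by_contra hcon
        have : d = 3 := by omega
        subst this
        have e : Complex.I * (-Complex.I) ^ 3 = -1 := by
          have : (-Complex.I) ^ 3 = Complex.I := by
            linear_combination (-Complex.I) * hI2
          rw [this, hI2]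
        rw [e] at hmu
        norm_num at hmu
      -- the commutators
      have hmem : ∀ j, t j ∈ Subgroup.closure (Set.range t) := fun j =>
        Subgroup.subset_closure ⟨j, rfl⟩
      have hPm : P ∈ Subgroup.closure (Set.range t) := by
        have m1 := hmem 0
        have m2 := hmem 1
        have m3 := hmem 2
        have := Subgroup.mul_mem _ (Subgroup.mul_mem _ m1 m2) m3
        exact this
      have comm : ∀ (x : Matrix (Fin 2) (Fin 2) ℂ) (hx : x * x = 1) (s : G 2) (a : VF 2),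
          HomT 2 a → s ∈ Subgroup.closure (Set.range t) → s * (Tl x hx)⁻¹ ∈ K 2 2 →
          gr 2 ((s * (Tl x hx)⁻¹ : G 2) : FormalMap 2) = a →
          ∀ D : VF 2, HomT (d - 1) D → br a D ∈ S := by
        intro x hx s a ha hs hsK hga D hD
        set T := Tl x hx with hT
        have e : P * s * P⁻¹ * s⁻¹ = (P * (s * T⁻¹) * P⁻¹) *
            ((P * Lam⁻¹) * ((Lam * T * Lam⁻¹) * (P * Lam⁻¹)⁻¹ * T⁻¹)) * (s * T⁻¹)⁻¹ := by group
        have m1 : P * (s * T⁻¹) * P⁻¹ ∈ K 2 2 := (K_normal 2).conj_mem _ hsK _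
        have m2 : (P * Lam⁻¹) * ((Lam * T * Lam⁻¹) * (P * Lam⁻¹)⁻¹ * T⁻¹) ∈ K 2 3 := by
          apply (K 2 3).mul_mem hPL
          rw [hT, Lam_comm]
          exact (K_normal 3).conj_mem _ ((K 2 3).inv_mem hPL) _
        have m2' := K_mono (n := 2) (show 2 ≤ 3 by norm_num) m2
        have m12 := (K 2 2).mul_mem m1 m2'
        have m3 := (K 2 2).inv_mem hsK
        have hgr : gr 2 ((P * s * P⁻¹ * s⁻¹ : G 2) : FormalMap 2) = (-(1 + Complex.I)) • a := by
          rw [e, gr_mul (le_refl 2) m12 m3, gr_mul (le_refl 2) m1 m2', gr_inv (le_refl 2) hsK,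
            gr_conj (le_refl 2) P hsK, gr_of_mem_K_succ (le_refl 2) m2, hga]
          have lP : linPart (P : FormalMap 2) = Complex.I • 1 := by
            have e2 : P = (P * Lam⁻¹) * Lam := by group
            rw [e2, Units.val_mul, linPart_mul,
              linPart_of_mem_K (K_mono (show 2 ≤ 3 by norm_num) hPL), Lam_lin, Matrix.one_mul]
          have lP' : linPart ((P⁻¹ : G 2) : FormalMap 2) = (-Complex.I) • 1 := by
            have e2 : P⁻¹ = Lam⁻¹ * (P * Lam⁻¹)⁻¹ := by group
            rw [e2, Units.val_mul, linPart_mul,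
              linPart_of_mem_K ((K 2 2).inv_mem (K_mono (show 2 ≤ 3 by norm_num) hPL)),
              Lam_inv_lin, Matrix.mul_one]
          rw [lP, lP', act_scalar _ _ ha]
          have e1 : Complex.I * (-Complex.I) ^ 2 = -Complex.I := by
            rw [neg_sq, Complex.I_sq]; ring
          rw [e1]
          module
        have hin : br ((-(1 + Complex.I)) • a) D ∈ S := by
          apply Submodule.subset_span
          right
          refine ⟨hd4, P * s * P⁻¹ * s⁻¹, ?_, ?_, D, hD, ?_⟩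
          · exact Subgroup.mul_mem _ (Subgroup.mul_mem _ (Subgroup.mul_mem _ hPm hs)
              (Subgroup.inv_mem _ hPm)) (Subgroup.inv_mem _ hs)
          · rw [e]
            exact (K 2 2).mul_mem m12 m3
          · rw [hgr]
        rw [br_smul_left] at hin
        have e5 : br a D = (-(1 + Complex.I))⁻¹ • ((-(1 + Complex.I)) • br a D) := by
          rw [smul_smul, inv_mul_cancel₀ (neg_ne_zero.2 hI1), one_smul]
        rw [e5]
        exact S.smul_mem _ hin
      have c1 : ∀ D : VF 2, HomT (d - 1) D → br a1 D ∈ S :=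
        comm mX mX_sq t1 a1 (lE_hom _ _) (hmem 0) hK1 hg1
      have c2 : ∀ D : VF 2, HomT (d - 1) D → br a2 D ∈ S :=
        comm mY mY_sq t2 a2 (lE_hom _ _) (hmem 1) hK2 hg2
      have hI3 : (Complex.I - 1 : ℂ) ≠ 0 := by
        intro h
        have := congrArg Complex.im h
        simp at this
      have hx : xE = (-(1 + Complex.I)⁻¹) • a1 + ((1 + Complex.I)⁻¹) • a2 := by
        rw [ha1, ha2, lE_smul, lE_smul, lE_add]
        have e1 : -(1 + Complex.I)⁻¹ * -Complex.I + (1 + Complex.I)⁻¹ * 1 = 1 := by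
          field_simp
          ring
        have e2 : -(1 + Complex.I)⁻¹ * Complex.I + (1 + Complex.I)⁻¹ * Complex.I = 0 := by ring
        rw [e1, e2]
        funext i
        simp [xE, lE]
      have hy : yE = ((Complex.I - 1)⁻¹) • a1 + (Complex.I * (Complex.I - 1)⁻¹) • a2 := by
        rw [ha1, ha2, lE_smul, lE_smul, lE_add]
        have e1 : (Complex.I - 1)⁻¹ * -Complex.I + Complex.I * (Complex.I - 1)⁻¹ * 1 = 0 := by ring
        have e2 : (Complex.I - 1)⁻¹ * Complex.I + Complex.I * (Complex.I - 1)⁻¹ * Complex.I = 1 := by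
          field_simp
          linear_combination hI2
        rw [e1, e2]
        funext i
        simp [yE, lE]
      obtain ⟨B, B', hB⟩ := h2 d hd4
      obtain ⟨b1, b2, b3, _⟩ := hB w hw
      rw [← b3, hx, hy, br_add_left, br_add_left, br_smul_left, br_smul_left, br_smul_left,
        br_smul_left]
      exact S.add_mem (S.add_mem (S.smul_mem _ (c1 _ b1)) (S.smul_mem _ (c2 _ b1)))
        (S.add_mem (S.smul_mem _ (c1 _ b2)) (S.smul_mem _ (c2 _ b2)))
    · -- the other degrees
      have hne : 1 - Complex.I * (-Complex.I) ^ d ≠ 0 := fun h => hmu (sub_eq_zero.1 h).symm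
      have e : w = (1 - Complex.I * (-Complex.I) ^ d)⁻¹ •
          (w - (Complex.I * (-Complex.I) ^ d) • w) := by
        have e1 : w - (Complex.I * (-Complex.I) ^ d) • w =
            (1 - Complex.I * (-Complex.I) ^ d) • w := by rw [sub_smul, one_smul]
        rw [e1, smul_smul, inv_mul_cancel₀ hne, one_smul]
      rw [e]
      exact S.smul_mem _ tel
  intro F hF
  rcases hF with hF | hF
  · exact main F hF
  · apply prodInv_inv
    apply main
    have h3 := linPart_inv_mul F
    rw [hF] at h3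
    have h4 : linPart ((F⁻¹ : G 2) : FormalMap 2) * ((-Complex.I) • 1) = 1 := h3
    rw [Matrix.mul_smul, Matrix.mul_one] at h4
    have h5 := congrArg (fun M => Complex.I • M) h4
    simp only [smul_smul] at h5
    have e : Complex.I * -Complex.I = 1 := by
      rw [mul_neg, Complex.I_mul_I, neg_neg]
    rw [e, one_smul] at h5
    exact h5

end Pool.Agent.L7h36.RV
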