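import Pool.Agent.L7h57.RV.Stm

/-!
# Project RV, part NIN
-/

namespace Pool.Agent.L7h36.RV

open MvPolynomial Pool.Helper89.Rev Pool.Agent.L7h57.RV Finset

variable {n : ℕ}

lemma hasDerivAt_eval (h : MvPolynomial (Fin n) ℂ) (γ : ℂ → Fin n → ℂ) (γ' : Fin n → ℂ) (z : ℂ)
    (hγ : ∀ k, HasDerivAt (fun w => γ w k) (γ' k) z) :
    HasDerivAt (fun w => eval (γ w) h) (∑ k, eval (γ z) (pderiv k h) * γ' k) z := by
  induction h using MvPolynomial.induction_on with
  | C a =>
    simp only [eval_C, pderiv_C, map_zero, zero_mul, Finset.sum_const_zero]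
    exact hasDerivAt_const _ _
  | add p q hp hq =>
    have := hp.add hq
    simp only [map_add, add_mul, Finset.sum_add_distrib]
    exact this
  | mul_X p i hp =>
    have h3 := hp.mul (hγ i)
    have e : ∑ k, eval (γ z) (pderiv k (p * X i)) * γ' k =
        (∑ k, eval (γ z) (pderiv k p) * γ' k) * γ z i + eval (γ z) p * γ' i := by
      have e1 : ∀ k, eval (γ z) (pderiv k (p * X i)) * γ' k =
          eval (γ z) (pderiv k p) * γ' k * γ z i + (if k = i then eval (γ z) p * γ' i else 0) := by
        intro k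
        rw [pderiv_mul, pderiv_X]
        by_cases hk : k = i
        · subst hk
          simp
          ring
        · rw [if_neg hk]
          have e2 : (Pi.single k (1 : MvPolynomial (Fin n) ℂ) : Fin n → MvPolynomial (Fin n) ℂ) i
              = 0 := Pi.single_eq_of_ne (Ne.symm hk) _
          rw [e2]
          simp
          ring
      rw [Finset.sum_congr rfl fun k _ => e1 k, Finset.sum_add_distrib, ← Finset.sum_mul]
      simp
    rw [e]
    have e4 : (fun w => eval (γ w) (p * X i)) = (fun w => eval (γ w) p) * fun w => γ w i := by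
      funext w
      simp
    rw [e4]
    exact h3

lemma der_zero {f : ℂ → ℂ} {f' c : ℂ} (hf : HasDerivAt f f' 1) (hc : ∀ z, z ≠ 0 → f z = c) :
    f' = 0 := by
  have h2 : HasDerivAt f 0 1 := (hasDerivAt_const (1 : ℂ) c).congr_of_eventuallyEq (by
    filter_upwards [isOpen_ne.mem_nhds (one_ne_zero : (1 : ℂ) ≠ 0)] with z hz using hc z hz)
  exact hf.unique h2

/-- one parameter group of the torus -/
noncomputable def Lz (l : Fin n) (z : ℂ) : Fin n → ℂ :=
  fun k => if k = l then z else if k = Fin.rev l then z⁻¹ else 1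

/-- its generator -/
noncomputable def dl (l : Fin n) : Fin n → ℂ :=
  fun k => if k = l then 1 else if k = Fin.rev l then -1 else 0

lemma Lz_one (l : Fin n) : Lz l 1 = fun _ => 1 := by
  funext k
  simp [Lz]

lemma Lz_torus (l : Fin n) (hl : Fin.rev l ≠ l) (z : ℂ) (hz : z ≠ 0) : IsTorus (Lz l z) :=
  isTorus_update isTorus_one l hl z hz

lemma Lz_deriv (l k : Fin n) : HasDerivAt (fun z => Lz l z k) (dl l k) 1 := by
  unfold Lz dl
  split_ifs with h1 h2
  · exact hasDerivAt_id _
  · have := hasDerivAt_inv (one_ne_zero : (1 : ℂ) ≠ 0)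
    simpa using this
  · exact hasDerivAt_const _ _

lemma sum_dl (l : Fin n) (hl : Fin.rev l ≠ l) (f : Fin n → ℂ) :
    ∑ k, dl l k * f k = f l - f (Fin.rev l) := by
  rw [sum_split l hl]
  have e : ∑ j ∈ (univ.erase l).erase (Fin.rev l), dl l j * f j = 0 := by
    apply Finset.sum_eq_zero
    intro j hj
    have h1 := Finset.ne_of_mem_erase hj
    have h2 := Finset.ne_of_mem_erase (Finset.mem_of_mem_erase hj)
    simp [dl, h1, h2]
  rw [e]
  simp [dl, hl]
  ring

section inv

variable {v : Fin n → ℂ} {h : MvPolynomial (Fin n) ℂ}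

lemma id_a (hT : ∀ lam : Fin n → ℂ, IsTorus lam → ∀ y : Fin n → ℂ,
    eval (fun k => lam k * y k) h = eval y h) (l : Fin n) (hl : Fin.rev l ≠ l) (y : Fin n → ℂ) :
    y l * eval y (pderiv l h) = y (Fin.rev l) * eval y (pderiv (Fin.rev l) h) := by
  have h1 := hasDerivAt_eval h (fun z k => Lz l z k * y k) (fun k => dl l k * y k) 1
    (fun k => (Lz_deriv l k).mul_const _)
  have h2 := der_zero h1 (fun z hz => hT _ (Lz_torus l hl z hz) y)
  have e : (fun k => Lz l 1 k * y k) = y := by
    funext k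
    rw [Lz_one, one_mul]
  rw [e] at h2
  have h3 := sum_dl l hl (fun k => eval y (pderiv k h) * y k)
  have h4 : ∑ k, dl l k * (eval y (pderiv k h) * y k) =
      ∑ k, eval y (pderiv k h) * (dl l k * y k) := Finset.sum_congr rfl fun k _ => by ring
  rw [h4, h2] at h3
  linear_combination -h3

lemma id_inv (hT : ∀ lam : Fin n → ℂ, IsTorus lam → ∀ y : Fin n → ℂ,
    eval (fun k => lam k * y k) h = eval y h) (lam : Fin n → ℂ) (hlam : IsTorus lam)
    (i : Fin n) (y : Fin n → ℂ) :
    lam i * eval (fun k => lam k * y k) (pderiv i h) = eval y (pderiv i h) := by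
  have h1 := hasDerivAt_eval h (fun t k => lam k * (y k + t * (if k = i then 1 else 0)))
    (fun k => lam k * (if k = i then 1 else 0)) 0 (fun k => by
      have := (((hasDerivAt_id (0 : ℂ)).mul_const (if k = i then (1 : ℂ) else 0)).const_add
        (y k)).const_mul (lam k)
      simpa using this)
  have h2 := hasDerivAt_eval h (fun t k => (y k + t * (if k = i then 1 else 0)))
    (fun k => (if k = i then 1 else 0)) 0 (fun k => by
      have := (((hasDerivAt_id (0 : ℂ)).mul_const (if k = i then (1 : ℂ) else 0)).const_add (y k))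
      simpa using this)
  have e : (fun t : ℂ => eval (fun k => lam k * (y k + t * (if k = i then 1 else 0))) h) =
      fun t : ℂ => eval (fun k => (y k + t * (if k = i then 1 else 0))) h := by
    funext t
    exact hT lam hlam _
  rw [e] at h1
  have h3 := h1.unique h2
  simp only [zero_mul, add_zero] at h3
  simp only [mul_ite, mul_one, mul_zero, Finset.sum_ite_eq', Finset.mem_univ, if_true] at h3
  rw [mul_comm]
  exact h3

lemma id_b (hv : ∑ i, v i = 1) (hT : ∀ lam : Fin n → ℂ, IsTorus lam → ∀ y : Fin n → ℂ,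
    eval (fun k => lam k * y k) h = eval y h)
    (hR : ∀ y : Fin n → ℂ, eval (fun k => y k - 2 * (∑ j, y j) * v k) h = eval y h)
    (l : Fin n) (hl : Fin.rev l ≠ l) (y : Fin n → ℂ) :
    (y l - y (Fin.rev l) - 2 * (v l - v (Fin.rev l)) * ∑ j, y j) *
      (∑ k, eval y (pderiv k h) * v k) +
      (∑ j, y j) * (v l * eval y (pderiv l h) - v (Fin.rev l) * eval y (pderiv (Fin.rev l) h)) =
      0 := by
  set s := ∑ j, y j with hs
  set w : Fin n → ℂ := fun k => y k - 2 * s * v k with hw
  have hsw : ∑ k, w k = -s := by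
    rw [hw, Finset.sum_sub_distrib, ← Finset.mul_sum, hv, ← hs]
    ring
  have hder : ∀ k, HasDerivAt (fun z => Lz l z k * w k - 2 * (∑ j, Lz l z j * w j) * v k)
      (dl l k * w k - 2 * (∑ j, dl l j * w j) * v k) 1 := by
    intro k
    have d1 := (Lz_deriv l k).mul_const (w k)
    have d2 : HasDerivAt (fun z => ∑ j, Lz l z j * w j) (∑ j, dl l j * w j) 1 :=
      HasDerivAt.fun_sum fun j _ => (Lz_deriv l j).mul_const (w j)
    exact d1.sub ((d2.const_mul 2).mul_const (v k))
  have h1 := hasDerivAt_eval h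
    (fun z k => Lz l z k * w k - 2 * (∑ j, Lz l z j * w j) * v k) _ 1 hder
  have h2 := der_zero (c := eval y h) h1 (fun z hz => by
    rw [hR (fun k => Lz l z k * w k), hT _ (Lz_torus l hl z hz) w, hw, hR y])
  have e : (fun k => Lz l 1 k * w k - 2 * (∑ j, Lz l 1 j * w j) * v k) = y := by
    funext k
    simp only [Lz_one, one_mul, hsw]
    rw [hw]
    ring
  rw [e] at h2
  have e2 : ∑ j, dl l j * w j = w l - w (Fin.rev l) := sum_dl l hl w
  rw [e2] at h2
  have e3 : ∑ k, eval y (pderiv k h) * (dl l k * w k - 2 * (w l - w (Fin.rev l)) * v k) =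
      (∑ k, dl l k * (eval y (pderiv k h) * w k)) - 2 * (w l - w (Fin.rev l)) *
        ∑ k, eval y (pderiv k h) * v k := by
    rw [Finset.mul_sum, ← Finset.sum_sub_distrib]
    exact Finset.sum_congr rfl fun k _ => by ring
  rw [e3, sum_dl l hl] at h2
  have ha := id_a hT l hl y
  simp only [hw] at h2
  linear_combination (-1 / 2 : ℂ) * h2 + (1 / 2 : ℂ) * ha

end inv

lemma root_exists (δ a b c : ℂ) (hδ : δ ≠ 0) (ha : a ≠ 0) (hb : b ≠ 0) (hc : c ≠ 0) :
    ∃ z : ℂ, z ≠ 0 ∧ (1 - 2 * δ) * a * z ^ 2 - 2 * δ * c * z - (1 + 2 * δ) * b = 0 := by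
  by_cases h1 : 1 - 2 * δ = 0
  · refine ⟨-((1 + 2 * δ) * b) / (2 * δ * c), ?_, ?_⟩
    · have h2 : 1 + 2 * δ ≠ 0 := by
        intro h
        have : (2 : ℂ) = 0 := by linear_combination h1 + h
        norm_num at this
      apply div_ne_zero (neg_ne_zero.2 (mul_ne_zero h2 hb))
      exact mul_ne_zero (mul_ne_zero two_ne_zero hδ) hc
    · rw [h1]
      field_simp
      ring
  · by_cases h2 : 1 + 2 * δ = 0
    · refine ⟨2 * δ * c / ((1 - 2 * δ) * a), ?_, ?_⟩
      · exact div_ne_zero (mul_ne_zero (mul_ne_zero two_ne_zero hδ) hc) (mul_ne_zero h1 ha)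
      · rw [h2]
        field_simp
        ring
    · obtain ⟨w, hw⟩ : ∃ w : ℂ, (2 * δ * c) ^ 2 + 4 * ((1 - 2 * δ) * a) * ((1 + 2 * δ) * b) =
        w * w := IsAlgClosed.exists_eq_mul_self _
      have hq : (1 - 2 * δ) * a ≠ 0 := mul_ne_zero h1 ha
      have hroot : (1 - 2 * δ) * a * ((2 * δ * c + w) / (2 * ((1 - 2 * δ) * a))) ^ 2 -
          2 * δ * c * ((2 * δ * c + w) / (2 * ((1 - 2 * δ) * a))) - (1 + 2 * δ) * b = 0 := by
        set q := (1 - 2 * δ) * a with hqd
        field_simp
        linear_combination -hw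
      refine ⟨_, ?_, hroot⟩
      intro h0
      rw [h0] at hroot
      have : (1 + 2 * δ) * b = 0 := by linear_combination -hroot
      exact mul_ne_zero h2 hb this

lemma core_point' {v1 v2 δ a b c z P P' D : ℂ} (hv : v1 ≠ 0 ∨ v2 ≠ 0) (ha : a ≠ 0)
    (hb : b ≠ 0) (hz : z ≠ 0) (hroot : (1 - 2 * δ) * a * z ^ 2 - 2 * δ * c * z - (1 + 2 * δ) * b = 0)
    (hdisc : c ^ 2 - 4 * a * b ≠ 0)
    (h5 : v1 * v2 = 0 ∨ ((1 - 2 * δ) * v1 - (1 + 2 * δ) * v2) ^ 2 * a * b -
      4 * δ ^ 2 * (v1 * v2) * c ^ 2 ≠ 0)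
    (hA : z * a * P = z⁻¹ * b * P')
    (hB : (z * a - z⁻¹ * b - 2 * δ * (z * a + z⁻¹ * b + c)) * D +
      (z * a + z⁻¹ * b + c) * (v1 * P - v2 * P') = 0) : P = 0 := by
  by_contra hP
  obtain ⟨r, hr⟩ : ∃ r, r = z⁻¹ := ⟨_, rfl⟩
  have hzr : z * r = 1 := by rw [hr]; exact mul_inv_cancel₀ hz
  have hr0 : r ≠ 0 := by rw [hr]; exact inv_ne_zero hz
  rw [← hr] at hA hB
  have hdiv : (1 - 2 * δ) * a * z - 2 * δ * c - (1 + 2 * δ) * b * r = 0 := by
    linear_combination r * hroot - ((1 - 2 * δ) * a * z - 2 * δ * c) * hzr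
  have hm : z * a - r * b - 2 * δ * (z * a + r * b + c) = 0 := by
    linear_combination hdiv
  rw [hm, zero_mul, zero_add] at hB
  rcases mul_eq_zero.1 hB with hs | hs
  · apply hdisc
    rw [hs, mul_zero, sub_zero] at hm
    linear_combination (c - (z * a + r * b)) * hs + (z * a - r * b) * hm + 4 * a * b * hzr
  · have hstar : (v1 * r * b - v2 * z * a) * P = 0 := by
      linear_combination r * b * hs - v2 * hA
    have hst : v1 * r * b - v2 * z * a = 0 := (mul_eq_zero.1 hstar).resolve_right hP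
    rcases h5 with h5 | h5
    · rcases mul_eq_zero.1 h5 with h6 | h6
      · rw [h6] at hst
        have h7 : v2 * (z * a) = 0 := by linear_combination -hst
        rcases mul_eq_zero.1 h7 with h8 | h8
        · rcases hv with hv | hv
          · exact hv h6
          · exact hv h8
        · exact mul_ne_zero hz ha h8
      · rw [h6] at hst
        have h7 : v1 * (r * b) = 0 := by linear_combination hst
        rcases mul_eq_zero.1 h7 with h8 | h8
        · rcases hv with hv | hv
          · exact hv h8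
          · exact hv h6
        · exact mul_ne_zero hr0 hb h8
    · apply h5
      have q1 : r * b * ((1 - 2 * δ) * v1 - (1 + 2 * δ) * v2) = 2 * δ * c * v2 := by
        linear_combination v2 * hdiv + (1 - 2 * δ) * hst
      have q2 : z * a * ((1 - 2 * δ) * v1 - (1 + 2 * δ) * v2) = 2 * δ * c * v1 := by
        linear_combination v1 * hdiv + (1 + 2 * δ) * hst
      have q3 : (r * b * ((1 - 2 * δ) * v1 - (1 + 2 * δ) * v2)) *
          (z * a * ((1 - 2 * δ) * v1 - (1 + 2 * δ) * v2)) = 2 * δ * c * v2 * (2 * δ * c * v1) := by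
        rw [q1, q2]
      linear_combination q3 - ((1 - 2 * δ) * v1 - (1 + 2 * δ) * v2) ^ 2 * a * b * hzr

theorem s_NIN : S_NIN := by
  classical
  intro n hn v hgood d h hd hh hT hR
  obtain ⟨hv, hv2, i, hi⟩ := hgood
  have hri : Fin.rev i ≠ i := by
    intro e
    apply hi
    rw [e]
  obtain ⟨k, hki, hki'⟩ : ∃ k : Fin n, k ≠ i ∧ k ≠ Fin.rev i := by
    have hc : ({i, Fin.rev i} : Finset (Fin n)).card < (univ : Finset (Fin n)).card := by
      have := Finset.card_le_two (a := i) (b := Fin.rev i)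
      rw [Finset.card_univ, Fintype.card_fin]
      omega
    obtain ⟨k, _, hk⟩ := Finset.exists_mem_notMem_of_card_lt_card hc
    rw [Finset.mem_insert, Finset.mem_singleton, not_or] at hk
    exact ⟨k, hk.1, hk.2⟩
  set δ := v i - v (Fin.rev i) with hδ
  have hδ0 : δ ≠ 0 := sub_ne_zero.2 hi
  set cP : MvPolynomial (Fin n) ℂ := ∑ j ∈ (univ.erase i).erase (Fin.rev i), X j with hcP
  set ek : Fin n → ℂ := Pi.single k 1 with hek
  have eki : ek i = 0 := Pi.single_eq_of_ne (Ne.symm hki) _
  have eki' : ek (Fin.rev i) = 0 := Pi.single_eq_of_ne (Ne.symm hki') _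
  have hcy : ∀ y : Fin n → ℂ, eval y cP = ∑ j ∈ (univ.erase i).erase (Fin.rev i), y j := by
    intro y
    rw [hcP, map_sum]
    simp
  have hcek : eval ek cP = 1 := by
    rw [hcy, Finset.sum_eq_single k]
    · rw [hek, Pi.single_eq_same]
    · intro j _ hj
      rw [hek, Pi.single_eq_of_ne hj]
    · intro hk
      exact absurd (Finset.mem_erase.2 ⟨hki', Finset.mem_erase.2 ⟨hki, Finset.mem_univ _⟩⟩) hk
  have hsumek : ∑ j, ek j = 1 := by
    rw [hek, Finset.sum_pi_single']
    simp
  set A := (1 - 2 * δ) * v i - (1 + 2 * δ) * v (Fin.rev i) with hA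
  set g4 : MvPolynomial (Fin n) ℂ := cP ^ 2 - C 4 * X i * X (Fin.rev i) with hg4
  set g5 : MvPolynomial (Fin n) ℂ := if v i * v (Fin.rev i) = 0 then 1 else
    C (A ^ 2) * X i * X (Fin.rev i) - C (4 * δ ^ 2 * (v i * v (Fin.rev i))) * cP ^ 2 with hg5
  have hcP0 : cP ≠ 0 := ne_zero_of_eval ek (by rw [hcek]; exact one_ne_zero)
  have hg40 : g4 ≠ 0 := ne_zero_of_eval ek (by
    rw [hg4]
    simp [hcek, eki, eki'])
  have hg50 : g5 ≠ 0 := by
    by_cases hvv : v i * v (Fin.rev i) = 0
    · rw [hg5, if_pos hvv]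
      exact one_ne_zero
    · rw [hg5, if_neg hvv]
      apply ne_zero_of_eval ek
      simp only [map_sub, map_mul, map_pow, eval_C, eval_X, hcek, eki, eki']
      intro h0
      have : δ ^ 2 * (v i * v (Fin.rev i)) = 0 := by linear_combination (-1 / 4 : ℂ) * h0
      rcases mul_eq_zero.1 this with h1 | h1
      · exact hδ0 (pow_eq_zero_iff two_ne_zero |>.1 h1)
      · exact hvv h1
  have hg : (X i * X (Fin.rev i) * cP * g4 * g5 : MvPolynomial (Fin n) ℂ) ≠ 0 :=
    mul_ne_zero (mul_ne_zero (mul_ne_zero (mul_ne_zero (X_ne_zero _) (X_ne_zero _)) hcP0) hg40) hg50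
  -- step (c)
  have hzero : ∀ y, eval y (pderiv i h) = 0 := by
    apply mul_eval_eq_zero hg
    intro y
    by_cases y0 : y i = 0
    · simp [y0]
    by_cases y1 : y (Fin.rev i) = 0
    · simp [y1]
    by_cases y2 : eval y cP = 0
    · simp [y2]
    by_cases y4 : eval y g4 = 0
    · simp [y4]
    by_cases y5 : eval y g5 = 0
    · simp [y5]
    apply mul_eq_zero_of_right
    obtain ⟨z, hz, hroot⟩ := root_exists δ (y i) (y (Fin.rev i)) (eval y cP) hδ0 y0 y1 y2
    set u : Fin n → ℂ := fun k => Lz i z k * y k with hu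
    have hui : u i = z * y i := by simp [hu, Lz]
    have hui' : u (Fin.rev i) = z⁻¹ * y (Fin.rev i) := by simp [hu, Lz, hri]
    have hus : ∑ j, u j = z * y i + z⁻¹ * y (Fin.rev i) + eval y cP := by
      rw [sum_split i hri, hui, hui', hcy]
      congr 1
      apply Finset.sum_congr rfl
      intro j hj
      have h1 := Finset.ne_of_mem_erase hj
      have h2 := Finset.ne_of_mem_erase (Finset.mem_of_mem_erase hj)
      simp [hu, Lz, h1, h2]
    have hA' := id_a hT i hri u
    have hB' := id_b hv hT hR i hri u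
    rw [hui, hui'] at hA'
    rw [hui, hui', hus] at hB'
    have h5' : v i * v (Fin.rev i) = 0 ∨ ((1 - 2 * δ) * v i - (1 + 2 * δ) * v (Fin.rev i)) ^ 2 *
        y i * y (Fin.rev i) - 4 * δ ^ 2 * (v i * v (Fin.rev i)) * (eval y cP) ^ 2 ≠ 0 := by
      by_cases hvv : v i * v (Fin.rev i) = 0
      · exact Or.inl hvv
      · right
        rw [hg5, if_neg hvv] at y5
        simpa using y5
    have h4' : (eval y cP) ^ 2 - 4 * y i * y (Fin.rev i) ≠ 0 := by
      rw [hg4] at y4
      simpa using y4
    have hP := core_point' (hv2 i) y0 y1 hz hroot h4' h5' hA' hB'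
    have hinv := id_inv hT (Lz i z) (Lz_torus i hri z hz) i y
    have e : eval (fun k => Lz i z k * y k) (pderiv i h) = 0 := hP
    rw [← hinv, e, mul_zero]
  have hzero' : ∀ y, eval y (pderiv (Fin.rev i) h) = 0 := by
    apply mul_eval_eq_zero (X_ne_zero (Fin.rev i))
    intro y
    have := id_a hT i hri y
    rw [hzero y, mul_zero] at this
    rw [eval_X, ← this]
  have hsumP : ∀ y : Fin n → ℂ, eval y (∑ j, X j : MvPolynomial (Fin n) ℂ) = ∑ j, y j := by
    intro y
    rw [map_sum]
    simp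
  have hsP0 : (∑ j, X j : MvPolynomial (Fin n) ℂ) ≠ 0 := ne_zero_of_eval ek (by
    rw [hsumP, hsumek]
    exact one_ne_zero)
  -- step (d)
  have hDv : ∀ y, eval y (∑ k, pderiv k h * C (v k)) = 0 := by
    have hg6 : (X i - X (Fin.rev i) - C (2 * δ) * ∑ j, X j : MvPolynomial (Fin n) ℂ) ≠ 0 := by
      apply ne_zero_of_eval ek
      rw [map_sub, map_sub, map_mul, hsumP, hsumek, eval_X, eval_X, eval_C, eki, eki']
      intro h0
      apply hδ0
      linear_combination (-1 / 2 : ℂ) * h0
    apply mul_eval_eq_zero hg6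
    intro y
    have hB' := id_b hv hT hR i hri y
    rw [hzero, hzero', mul_zero, mul_zero, sub_zero, mul_zero, add_zero] at hB'
    rw [map_sub, map_sub, map_mul, hsumP, eval_X, eval_X, eval_C, map_sum]
    simp only [map_mul, eval_C]
    exact hB'
  have hoff : ∀ l, Fin.rev l ≠ l → ∀ y, eval y (pderiv l h) = 0 := by
    intro l hl
    have hg7 : (C (v l) * X (Fin.rev l) - C (v (Fin.rev l)) * X l : MvPolynomial (Fin n) ℂ) ≠ 0 := by
      by_cases hvl : v l = 0
      · have hvl' : v (Fin.rev l) ≠ 0 := (hv2 l).resolve_left (not_not.2 hvl)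
        apply ne_zero_of_eval (Pi.single l 1)
        rw [map_sub, map_mul, map_mul, eval_X, eval_X, eval_C, eval_C, Pi.single_eq_same,
          Pi.single_eq_of_ne hl]
        intro h0
        apply hvl'
        linear_combination -h0
      · apply ne_zero_of_eval (Pi.single (Fin.rev l) 1)
        rw [map_sub, map_mul, map_mul, eval_X, eval_X, eval_C, eval_C, Pi.single_eq_same,
          Pi.single_eq_of_ne (Ne.symm hl)]
        intro h0
        apply hvl
        linear_combination h0
    apply mul_eval_eq_zero (mul_ne_zero hsP0 hg7)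
    intro y
    have hB' := id_b hv hT hR l hl y
    have hA' := id_a hT l hl y
    have hD' := hDv y
    rw [map_sum] at hD'
    simp only [map_mul, eval_C] at hD'
    rw [hD', mul_zero, zero_add] at hB'
    rw [map_mul, hsumP, map_sub, map_mul, map_mul, eval_X, eval_X, eval_C, eval_C]
    linear_combination (y (Fin.rev l)) * hB' - (∑ j, y j) * v (Fin.rev l) * hA'
  have hall : ∀ l, pderiv l h = 0 := by
    intro l
    apply MvPolynomial.funext
    intro y
    rw [map_zero]
    by_cases hl : Fin.rev l = l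
    · have hvl : v l ≠ 0 := by
        have := hv2 l
        rw [hl, or_self] at this
        exact this
      have hD' := hDv y
      rw [map_sum, Finset.sum_eq_single l] at hD'
      · rw [map_mul, eval_C] at hD'
        exact (mul_eq_zero.1 hD').resolve_right hvl
      · intro j _ hj
        have : Fin.rev j ≠ j := fun hjj => hj (rev_eq_unique hjj hl)
        rw [map_mul, hoff j this y, zero_mul]
      · intro hl'
        exact absurd (Finset.mem_univ _) hl'
    · exact hoff l hl y
  have he := hh.sum_X_mul_pderiv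
  simp only [hall, mul_zero, Finset.sum_const_zero] at he
  have h9 : (d : ℂ) • h = 0 := by
    rw [Nat.cast_smul_eq_nsmul]
    exact he.symm
  rcases smul_eq_zero.1 h9 with h10 | h10
  · have : d = 0 := by exact_mod_cast h10
    omega
  · exact h10

end Pool.Agent.L7h36.RV
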